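import Pool.Agent.Helper70.SUB.SheetR
import Mathlib.NumberTheory.SiegelsLemma

/-!
Project SUB, row SIEG: the auxiliary polynomial.
-/

set_option autoImplicit false

namespace Pool.Agent.Helper69.SUB

open Finset Pool.Agent.Helper70.SUB

section
attribute [local instance] Matrix.seminormedAddCommGroup

theorem siegel {α β : Type} [Fintype α] [Fintype β] (A : Matrix α β ℤ) (a : ℝ) (ha : 1 ≤ a)
    (hA : ∀ i j, |(A i j : ℝ)| ≤ a) (hc : 2 * Fintype.card α ≤ Fintype.card β)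
    (hβ : 0 < Fintype.card β) :
    ∃ t : β → ℤ, t ≠ 0 ∧ A.mulVec t = 0 ∧ ∀ j, |(t j : ℝ)| ≤ Fintype.card β * a := by
  classical
  have hb : (1 : ℝ) ≤ Fintype.card β := by exact_mod_cast hβ
  rcases Nat.eq_zero_or_pos (Fintype.card α) with h0 | h0
  · have : IsEmpty α := Fintype.card_eq_zero_iff.1 h0
    obtain ⟨j0⟩ : Nonempty β := Fintype.card_pos_iff.1 hβ
    refine ⟨Pi.single j0 1, ?_, ?_, ?_⟩
    · intro h
      have := congrFun h j0
      simp at this
    · funext i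
      exact isEmptyElim i
    · intro j
      have h1 : |((Pi.single j0 (1 : ℤ) : β → ℤ) j : ℝ)| ≤ 1 := by
        by_cases hj : j = j0
        · subst hj; simp
        · simp [Pi.single_eq_of_ne hj]
      have h2 : (1 : ℝ) ≤ Fintype.card β * a := by nlinarith
      exact h1.trans h2
  · obtain ⟨t, h1, h2, h3⟩ := Int.Matrix.exists_ne_zero_int_vec_norm_le A (by omega) h0
    refine ⟨t, h1, h2, fun j => ?_⟩
    have h4 : ‖t j‖ ≤ ‖t‖ := norm_le_pi_norm t j
    rw [Int.norm_eq_abs] at h4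
    refine h4.trans (h3.trans ?_)
    have hn : ‖A‖ ≤ a := by
      rw [Matrix.norm_le_iff (by linarith)]
      intro i j
      rw [Int.norm_eq_abs]
      exact hA i j
    have hmx : max 1 ‖A‖ ≤ a := max_le ha hn
    have hm1 : (1 : ℝ) ≤ max 1 ‖A‖ := le_max_left _ _
    have hbase : (1 : ℝ) ≤ (Fintype.card β : ℝ) * max 1 ‖A‖ := by nlinarith
    have hc' : 2 * (Fintype.card α : ℝ) ≤ Fintype.card β := by exact_mod_cast hc
    have ha0 : (0 : ℝ) < Fintype.card α := by exact_mod_cast h0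
    have hexp : (Fintype.card α : ℝ) / ((Fintype.card β : ℝ) - Fintype.card α) ≤ 1 := by
      rw [div_le_one (by linarith)]
      linarith
    calc ((Fintype.card β : ℝ) * max 1 ‖A‖) ^
          ((Fintype.card α : ℝ) / ((Fintype.card β : ℝ) - Fintype.card α))
        ≤ ((Fintype.card β : ℝ) * max 1 ‖A‖) ^ (1 : ℝ) :=
          Real.rpow_le_rpow_of_exponent_le hbase hexp
      _ = (Fintype.card β : ℝ) * max 1 ‖A‖ := Real.rpow_one _
      _ ≤ Fintype.card β * a := by gcongr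

end

/-- exponents -/
noncomputable def Jt {m n : ℕ} (t : Fin m → Fin n → ℕ) : Fin m × Fin n →₀ ℕ :=
  Finsupp.equivFunOnFinite.symm fun hi => t hi.1 hi.2

theorem Jt_apply {m n : ℕ} (t : Fin m → Fin n → ℕ) (h : Fin m) (i : Fin n) :
    Jt t (h, i) = t h i := rfl

theorem Jt_inj {m n : ℕ} {t t' : Fin m → Fin n → ℕ} (h : Jt t = Jt t') : t = t' := by
  funext a b
  rw [← Jt_apply t, h, Jt_apply]

theorem Jt_of {m n : ℕ} (J : Fin m × Fin n →₀ ℕ) : Jt (fun h i => J (h, i)) = J := by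
  ext ⟨h, i⟩
  rfl

/-- the exponents of the monomials with the right degrees -/
def Mon {m : ℕ} (n : ℕ) (r : Fin m → ℕ) : Finset (Fin m → Fin n → ℕ) :=
  Fintype.piFinset fun h => Finset.piAntidiag univ (r h)

theorem mem_Mon {m n : ℕ} {r : Fin m → ℕ} {t : Fin m → Fin n → ℕ} :
    t ∈ Mon n r ↔ ∀ h, ∑ i, t h i = r h := by
  unfold Mon
  rw [Fintype.mem_piFinset]
  refine forall_congr' fun h => ?_
  rw [Finset.mem_piAntidiag]
  constructor
  · exact fun h => h.1
  · exact fun h => ⟨h, fun _ _ => mem_univ _⟩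

theorem card_Mon {m n : ℕ} (r : Fin m → ℕ) :
    (Mon n r).card ≤ (2 ^ n) ^ (∑ h, r h) := by
  unfold Mon
  rw [Fintype.card_piFinset, ← Finset.prod_pow_eq_pow_sum]
  refine Finset.prod_le_prod' fun h _ => ?_
  have h1 : (Finset.piAntidiag (univ : Finset (Fin n)) (r h)) ⊆
      Fintype.piFinset fun _ : Fin n => Finset.range (r h + 1) := by
    intro f hf
    rw [Finset.mem_piAntidiag] at hf
    rw [Fintype.mem_piFinset]
    intro i
    rw [Finset.mem_range, Nat.lt_succ_iff, ← hf.1]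
    exact Finset.single_le_sum (fun _ _ => Nat.zero_le _) (mem_univ i)
  refine (Finset.card_le_card h1).trans ?_
  rw [Fintype.card_piFinset_const, Finset.card_range, ← pow_mul, mul_comm n, pow_mul]
  exact Nat.pow_le_pow_left (Nat.lt_two_pow_self (n := r h)) n

/-- the polynomial with the coefficients `x` -/
noncomputable def Pl {m n : ℕ} (r : Fin m → ℕ) (x : Mon n r → ℤ) :
    MvPolynomial (Fin m × Fin n) ℤ :=
  ∑ t : Mon n r, MvPolynomial.monomial (Jt t.1) (x t)

theorem Pl_coeff {m n : ℕ} (r : Fin m → ℕ) (x : Mon n r → ℤ) (t : Mon n r) :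
    (Pl r x).coeff (Jt t.1) = x t := by
  classical
  unfold Pl
  rw [MvPolynomial.coeff_sum, Finset.sum_eq_single t]
  · rw [MvPolynomial.coeff_monomial, if_pos rfl]
  · intro s _ hs
    rw [MvPolynomial.coeff_monomial, if_neg]
    intro h
    exact hs (Subtype.ext (Jt_inj h))
  · intro h
    exact absurd (mem_univ t) h

theorem Pl_supp {m n : ℕ} (r : Fin m → ℕ) (x : Mon n r → ℤ) (J : Fin m × Fin n →₀ ℕ)
    (hJ : (Pl r x).coeff J ≠ 0) : ∃ t : Mon n r, Jt t.1 = J := by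
  classical
  by_contra hc
  push Not at hc
  apply hJ
  unfold Pl
  rw [MvPolynomial.coeff_sum]
  refine Finset.sum_eq_zero fun t _ => ?_
  rw [MvPolynomial.coeff_monomial, if_neg (hc t)]

theorem MH_of {m n : ℕ} (r : Fin m → ℕ) (P : MvPolynomial (Fin m × Fin n) ℤ)
    (h : ∀ J, P.coeff J ≠ 0 → ∃ t : Mon n r, Jt t.1 = J) : MH r P := by
  intro J hJ a
  obtain ⟨t, rfl⟩ := h J hJ
  exact mem_Mon.1 t.2 a

theorem MH_mono {m n : ℕ} (r : Fin m → ℕ) (t : Mon n r) :
    MH r (MvPolynomial.monomial (Jt t.1) (1 : ℤ)) := by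
  classical
  refine MH_of r _ fun J hJ => ⟨t, ?_⟩
  by_contra hc
  apply hJ
  rw [MvPolynomial.coeff_monomial, if_neg hc]

theorem l1_mono {σ : Type} (J : σ →₀ ℕ) : l1 (MvPolynomial.monomial J (1 : ℤ)) = 1 := by
  classical
  unfold l1
  rw [MvPolynomial.support_monomial, if_neg one_ne_zero, Finset.sum_singleton,
    MvPolynomial.coeff_monomial, if_pos rfl, abs_one]

theorem lsub_Pl {m n : ℕ} (r : Fin m → ℕ) (x : Mon n r → ℤ) (N : Matrix (Fin n) (Fin n) ℤ)
    (J : Fin m × Fin n →₀ ℕ) : (lsub N (Pl r x)).coeff J =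
      ∑ t : Mon n r, (lsub N (MvPolynomial.monomial (Jt t.1) (1 : ℤ))).coeff J * x t := by
  unfold Pl
  rw [map_sum, MvPolynomial.coeff_sum]
  refine Finset.sum_congr rfl fun t _ => ?_
  have h1 : MvPolynomial.monomial (Jt t.1) (x t) =
      x t • MvPolynomial.monomial (Jt t.1) (1 : ℤ) := by
    rw [MvPolynomial.smul_monomial, smul_eq_mul, mul_one]
  rw [h1, map_smul, MvPolynomial.coeff_smul, smul_eq_mul, mul_comm]

/-- the exponents far from the mean -/
noncomputable def Bad {m : ℕ} (n : ℕ) (r : Fin m → ℕ) (ε : ℝ) : Finset (Fin m → Fin n → ℕ) :=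
  (Mon n r).filter fun t => ∃ i : Fin n, ε * m < |∑ h, ((t h i : ℝ) / r h - 1 / n)|

theorem card_Bad (hCH : ST_CHEB) (hME : ST_MEAN) {m n : ℕ} (r : Fin m → ℕ) (ε : ℝ) (hn : 1 ≤ n)
    (hε : 0 < ε) (hr : ∀ h, 1 ≤ r h) :
    ((Bad n r ε).card : ℝ) * (ε ^ 2 * m) ≤ n * (Mon n r).card := by
  classical
  have key : ∀ i : Fin n, (((Mon n r).filter fun t => ε * m <
      |∑ h, ((t h i : ℝ) / r h - 1 / n)|).card : ℝ) * (ε ^ 2 * m) ≤ (Mon n r).card := by
    intro i
    have h1 := hCH m (Fin n → ℕ) (fun h => Finset.piAntidiag (univ : Finset (Fin n)) (r h))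
      (fun h u => (u i : ℝ) / r h - 1 / n) ε hε ?_ ?_
    · have h2 : ((Mon n r).card : ℝ) =
          ∏ h, (((Finset.piAntidiag (univ : Finset (Fin n)) (r h)).card : ℕ) : ℝ) := by
        unfold Mon
        rw [Fintype.card_piFinset]
        push_cast
        rfl
      rw [h2]
      exact h1
    · intro h t ht
      rw [Finset.mem_piAntidiag] at ht
      have h3 : t i ≤ r h := by
        rw [← ht.1]
        exact Finset.single_le_sum (fun _ _ => Nat.zero_le _) (mem_univ i)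
      have h4 : (t i : ℝ) ≤ r h := by exact_mod_cast h3
      have h5 : (0 : ℝ) < r h := by exact_mod_cast hr h
      have h6 : (t i : ℝ) / r h ≤ 1 := by rw [div_le_one h5]; exact h4
      have h7 : 0 ≤ (t i : ℝ) / r h := by positivity
      have hn' : (1 : ℝ) ≤ n := by exact_mod_cast hn
      have h8 : (1 : ℝ) / n ≤ 1 := by rw [div_le_one (by linarith)]; exact hn'
      have h9 : (0 : ℝ) ≤ 1 / n := by positivity
      rw [abs_le]
      constructor <;> linarith
    · intro h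
      exact hME n (r h) i (hr h)
  have hsub : (Bad n r ε).card ≤ ∑ i : Fin n, ((Mon n r).filter fun t => ε * m <
      |∑ h, ((t h i : ℝ) / r h - 1 / n)|).card := by
    refine (Finset.card_le_card ?_).trans Finset.card_biUnion_le
    intro t ht
    unfold Bad at ht
    rw [Finset.mem_filter] at ht
    obtain ⟨h1, i, h2⟩ := ht
    rw [Finset.mem_biUnion]
    exact ⟨i, mem_univ i, Finset.mem_filter.2 ⟨h1, h2⟩⟩
  have h0 : (0 : ℝ) ≤ ε ^ 2 * m := by positivity
  calc ((Bad n r ε).card : ℝ) * (ε ^ 2 * m)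
      ≤ (((∑ i : Fin n, ((Mon n r).filter fun t => ε * m <
      |∑ h, ((t h i : ℝ) / r h - 1 / n)|).card : ℕ) : ℝ)) * (ε ^ 2 * m) := by
        gcongr
    _ = ∑ i : Fin n, (((Mon n r).filter fun t => ε * m <
      |∑ h, ((t h i : ℝ) / r h - 1 / n)|).card : ℝ) * (ε ^ 2 * m) := by
        push_cast
        rw [Finset.sum_mul]
    _ ≤ ∑ _i : Fin n, ((Mon n r).card : ℝ) := Finset.sum_le_sum fun i _ => key i
    _ = n * (Mon n r).card := by
        rw [Finset.sum_const, Finset.card_univ, Fintype.card_fin, nsmul_eq_mul]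

theorem Mon_pos {m n : ℕ} (r : Fin m → ℕ) (hn : 1 ≤ n) : 0 < (Mon n r).card := by
  classical
  rw [Finset.card_pos]
  refine ⟨fun h => Pi.single ⟨0, hn⟩ (r h), mem_Mon.2 fun h => ?_⟩
  rw [Finset.sum_pi_single']
  simp

theorem SIEG (hL1 : ST_L1) (hCH : ST_CHEB) (hME : ST_MEAN) (hLSB : ST_LSB) : ST_SIEG := by
  classical
  intro n κ _ N ε hn hε
  have hn' : (1 : ℝ) ≤ n := by exact_mod_cast hn
  -- bound of the entries
  obtain ⟨a, ha1, ha⟩ : ∃ a : ℤ, 1 ≤ a ∧ ∀ v i k, |N v i k| ≤ a := by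
    refine ⟨1 + ∑ v, ∑ i, ∑ k, |N v i k|, ?_, fun v i k => ?_⟩
    · have : 0 ≤ ∑ v, ∑ i, ∑ k, |N v i k| :=
        Finset.sum_nonneg fun _ _ => Finset.sum_nonneg fun _ _ =>
          Finset.sum_nonneg fun _ _ => abs_nonneg _
      linarith
    · have h1 : |N v i k| ≤ ∑ k, |N v i k| :=
        Finset.single_le_sum (f := fun k => |N v i k|) (fun _ _ => abs_nonneg _) (mem_univ k)
      have h2 : ∑ k, |N v i k| ≤ ∑ i, ∑ k, |N v i k| :=
        Finset.single_le_sum (f := fun i => ∑ k, |N v i k|)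
          (fun _ _ => Finset.sum_nonneg fun _ _ => abs_nonneg _) (mem_univ i)
      have h3 : ∑ i, ∑ k, |N v i k| ≤ ∑ v, ∑ i, ∑ k, |N v i k| :=
        Finset.single_le_sum (f := fun v => ∑ i, ∑ k, |N v i k|)
          (fun _ _ => Finset.sum_nonneg fun _ _ => Finset.sum_nonneg fun _ _ => abs_nonneg _)
          (mem_univ v)
      linarith
  refine ⟨⌈2 * (Fintype.card κ : ℝ) * n / ε ^ 2⌉₊, fun m hm => ?_⟩
  have hm' : 2 * (Fintype.card κ : ℝ) * n ≤ ε ^ 2 * m := by
    have h1 : 2 * (Fintype.card κ : ℝ) * n / ε ^ 2 ≤ m := (Nat.le_ceil _).trans (by exact_mod_cast hm)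
    rw [div_le_iff₀ (by positivity)] at h1
    linarith
  have ha1' : (1 : ℝ) ≤ a := by exact_mod_cast ha1
  have hna : (1 : ℝ) ≤ n * a := by nlinarith
  refine ⟨2 ^ n * (n * a), ?_, fun r hr => ?_⟩
  · have : (1 : ℝ) ≤ 2 ^ n := one_le_pow₀ (by norm_num)
    nlinarith
  -- the linear system
  let A : Matrix (κ × Bad n r ε) (Mon n r) ℤ := fun vs t =>
    (lsub (N vs.1) (MvPolynomial.monomial (Jt t.1) (1 : ℤ))).coeff (Jt vs.2.1)
  have hA : ∀ i j, |(A i j : ℝ)| ≤ (n * a : ℝ) ^ (∑ h, r h) := by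
    intro i j
    have h1 := (hLSB m n r (MvPolynomial.monomial (Jt j.1) (1 : ℤ)) (N i.1) a (ha i.1)
      (MH_mono r j)).2
    rw [l1_mono, mul_one] at h1
    have h2 := (hL1 (Fin m × Fin n)).2.2.1
      (lsub (N i.1) (MvPolynomial.monomial (Jt j.1) (1 : ℤ))) (Jt i.2.1)
    have h3 : |A i j| ≤ (n * a : ℤ) ^ (∑ h, r h) := h2.trans h1
    have h4 : ((|A i j| : ℤ) : ℝ) ≤ (((n * a : ℤ) ^ (∑ h, r h) : ℤ) : ℝ) := by exact_mod_cast h3
    push_cast at h4
    exact h4
  have hcard : 2 * Fintype.card (κ × Bad n r ε) ≤ Fintype.card (Mon n r) := by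
    rw [Fintype.card_prod, Fintype.card_coe, Fintype.card_coe]
    have h1 := card_Bad hCH hME r ε hn hε hr
    have h2 : ((Bad n r ε).card : ℝ) * (2 * (Fintype.card κ : ℝ) * n) ≤ n * (Mon n r).card :=
      (mul_le_mul_of_nonneg_left hm' (Nat.cast_nonneg _)).trans h1
    have h3 : 2 * ((Fintype.card κ : ℝ) * (Bad n r ε).card) ≤ (Mon n r).card := by
      have h4 : (n : ℝ) * (2 * ((Fintype.card κ : ℝ) * (Bad n r ε).card)) ≤
          n * (Mon n r).card := by linarith
      exact le_of_mul_le_mul_left h4 (by linarith)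
    exact_mod_cast h3
  have hpos : 0 < Fintype.card (Mon n r) := by
    rw [Fintype.card_coe]
    exact Mon_pos r hn
  obtain ⟨x, hx0, hx1, hx2⟩ := siegel A _ (one_le_pow₀ hna) hA hcard hpos
  refine ⟨Pl r x, ?_, ?_, ?_, ?_⟩
  · intro h0
    apply hx0
    funext t
    rw [← Pl_coeff r x t, h0]
    simp
  · exact MH_of r _ (Pl_supp r x)
  · intro J
    by_cases hJ : (Pl r x).coeff J = 0
    · rw [hJ, Int.cast_zero, abs_zero]
      positivity
    · obtain ⟨t, rfl⟩ := Pl_supp r x J hJ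
      rw [Pl_coeff]
      refine (hx2 t).trans ?_
      rw [Fintype.card_coe, mul_pow ((2 : ℝ) ^ n)]
      have h5 : ((Mon n r).card : ℝ) ≤ ((2 : ℝ) ^ n) ^ (∑ h, r h) := by
        exact_mod_cast card_Mon (n := n) r
      have h6 : (0 : ℝ) ≤ (n * a : ℝ) ^ (∑ h, r h) := by
        have : (0 : ℝ) ≤ n * a := by linarith
        positivity
      exact mul_le_mul_of_nonneg_right h5 h6
  · intro v J hJ i
    have hMH : MH r (lsub (N v) (Pl r x)) :=
      (hLSB m n r (Pl r x) (N v) a (ha v) (MH_of r _ (Pl_supp r x))).1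
    have h1 : ∀ h, ∑ i, J (h, i) = r h := hMH J hJ
    have ht : (fun h i => J (h, i)) ∈ Mon n r := mem_Mon.2 h1
    by_contra hbad
    push Not at hbad
    have hB : (fun h i => J (h, i)) ∈ Bad n r ε := by
      unfold Bad
      rw [Finset.mem_filter]
      refine ⟨ht, i, ?_⟩
      have h2 : ∑ h, ((J (h, i) : ℝ) / r h - 1 / n) = ∑ h, (J (h, i) : ℝ) / r h - m / n := by
        rw [Finset.sum_sub_distrib, Finset.sum_const, Finset.card_univ, Fintype.card_fin,
          nsmul_eq_mul]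
        ring
      rw [h2]
      exact hbad
    have h3 := congrFun hx1 (v, ⟨_, hB⟩)
    apply hJ
    rw [lsub_Pl]
    have h4 : (A.mulVec x) (v, ⟨_, hB⟩) = ∑ t : Mon n r,
        (lsub (N v) (MvPolynomial.monomial (Jt t.1) (1 : ℤ))).coeff J * x t := by
      unfold Matrix.mulVec dotProduct
      refine Finset.sum_congr rfl fun t _ => ?_
      show (lsub (N v) (MvPolynomial.monomial (Jt t.1) (1 : ℤ))).coeff
        (Jt fun h i => J (h, i)) * x t = _
      rw [Jt_of]
    rw [← h4, h3]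
    rfl

end Pool.Agent.Helper69.SUB
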